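import Mathlib

/-! Weak convergence of sequences in a Hilbert space, and an obstruction to weak
`1`-sequential supercyclicity. -/

open Filter Topology

namespace Pool.Agent.Lib.MP_e616d8_an

lemma tendsto_weak_iff {B : Type*} [NormedAddCommGroup B] [NormedSpace ℂ B]
    {u : ℕ → WeakSpace ℂ B} {y : WeakSpace ℂ B} :
    Tendsto u atTop (𝓝 y) ↔ ∀ f : B →L[ℂ] ℂ,
      Tendsto (fun k => f ((toWeakSpace ℂ B).symm (u k))) atTop
        (𝓝 (f ((toWeakSpace ℂ B).symm y))) := by
  constructor
  · intro h f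
    exact ((WeakBilin.eval_continuous (topDualPairing ℂ B).flip f).tendsto y).comp h
  · intro h
    have : Tendsto (fun k => fun f : StrongDual ℂ B => (topDualPairing ℂ B).flip (u k) f) atTop
        (𝓝 fun f => (topDualPairing ℂ B).flip y f) := tendsto_pi_nhds.mpr h
    exact tendsto_induced_iff_aux this
where
  tendsto_induced_iff_aux {B : Type _} [NormedAddCommGroup B] [NormedSpace ℂ B]
      {u : ℕ → WeakSpace ℂ B} {y : WeakSpace ℂ B}
      (h : Tendsto (fun k => fun f : StrongDual ℂ B => (topDualPairing ℂ B).flip (u k) f) atTop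
        (𝓝 fun f => (topDualPairing ℂ B).flip y f)) : Tendsto u atTop (𝓝 y) := by
    have : (𝓝 y) = Filter.comap
        (fun (x : WeakSpace ℂ B) (f : StrongDual ℂ B) => (topDualPairing ℂ B).flip x f)
        (𝓝 fun f => (topDualPairing ℂ B).flip y f) := nhds_induced _ _
    rw [this]
    exact tendsto_comap_iff.mpr h

variable {H : Type*} [NormedAddCommGroup H] [InnerProductSpace ℂ H] [CompleteSpace H]

/-- An orthonormal sequence is weakly null. -/
lemma tendsto_functional_orthonormal {R : ℕ → H} (hR : Orthonormal ℂ R) (g : H →L[ℂ] ℂ) :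
    Tendsto (fun k => g (R k)) atTop (𝓝 0) := by
  obtain ⟨z, rfl⟩ := (InnerProductSpace.toDual ℂ H).surjective g
  have h1 := (hR.inner_products_summable z).tendsto_atTop_zero
  rw [tendsto_zero_iff_norm_tendsto_zero]
  have h2 := (Real.continuous_sqrt.tendsto 0).comp h1
  rw [Real.sqrt_zero] at h2
  refine h2.congr fun k => ?_
  simp only [Function.comp, InnerProductSpace.toDual_apply_apply]
  rw [Real.sqrt_sq (norm_nonneg _), norm_inner_symm]

/-- A weakly convergent sequence is bounded. -/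
lemma bounded_of_weak {u : ℕ → H} {y : H}
    (h : ∀ f : H →L[ℂ] ℂ, Tendsto (fun k => f (u k)) atTop (𝓝 (f y))) :
    ∃ C, ∀ k, ‖u k‖ ≤ C := by
  have := banach_steinhaus (g := fun k => innerSL ℂ (u k)) (fun z => by
    have h1 := (h (innerSL ℂ z)).norm
    obtain ⟨C, hC⟩ := h1.bddAbove_range
    refine ⟨C, fun k => ?_⟩
    have := hC ⟨k, rfl⟩
    simp only [innerSL_apply_apply] at this ⊢
    rwa [norm_inner_symm])
  simpa using this

/-- If an isometry `T` preserves the seminorms `‖P k ·‖`, where the `P k` tend to zero strongly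
but not in norm, then no projective orbit of `T` is weakly `1`-sequentially dense. -/
lemma not_one_seq (T : H →L[ℂ] H) (P : ℕ → H →L[ℂ] H)
    (hT : ∀ x, ‖T x‖ = ‖x‖) (hPT : ∀ k x, ‖P k (T x)‖ = ‖P k x‖)
    (hP0 : ∀ x, Tendsto (fun k => ‖P k x‖) atTop (𝓝 0)) (hP1 : ∀ k, 1 ≤ ‖P k‖) (x : H) :
    seqClosure {y : WeakSpace ℂ H | ∃ (c : ℂ) (n : ℕ), y = toWeakSpace ℂ H (c • (T ^ n) x)} ≠
      Set.univ := by
  intro hall
  have hTn : ∀ n x, ‖(T ^ n) x‖ = ‖x‖ := by
    intro n
    induction n with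
    | zero => simp
    | succ n ih => intro x; rw [pow_succ', mul_apply_eq_comp, hT, ih]
  have hPTn : ∀ k n x, ‖P k ((T ^ n) x)‖ = ‖P k x‖ := by
    intro k n
    induction n with
    | zero => simp
    | succ n ih => intro x; rw [pow_succ', mul_apply_eq_comp, hPT, ih]
  have key : ∀ y : H, ∃ C, ∀ k, ‖P k y‖ ≤ C * ‖P k x‖ := by
    intro y
    have hy : toWeakSpace ℂ H y ∈ seqClosure
        {y : WeakSpace ℂ H | ∃ (c : ℂ) (n : ℕ), y = toWeakSpace ℂ H (c • (T ^ n) x)} := by
      rw [hall]; trivial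
    obtain ⟨u, hu, hlim⟩ := hy
    choose c n hcn using hu
    rw [tendsto_weak_iff] at hlim
    simp only [hcn, LinearEquiv.symm_apply_apply] at hlim
    obtain ⟨C, hC⟩ := bounded_of_weak hlim
    simp only [norm_smul, hTn] at hC
    have hbound : ∀ j k, ‖P k (c j • (T ^ n j) x)‖ ≤ C / ‖x‖ * ‖P k x‖ := by
      intro j k
      rw [map_smul, norm_smul, hPTn]
      rcases eq_or_ne x 0 with rfl | hx
      · simp
      · have hx' : 0 < ‖x‖ := norm_pos_iff.mpr hx
        gcongr
        rw [le_div_iff₀ hx']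
        exact hC j
    refine ⟨C / ‖x‖, fun k => ?_⟩
    have h1 := (hlim ((innerSL ℂ (P k y)).comp (P k))).norm
    simp only [ContinuousLinearMap.comp_apply, innerSL_apply_apply] at h1
    have h2 : ‖inner ℂ (P k y) (P k y)‖ ≤ ‖P k y‖ * (C / ‖x‖ * ‖P k x‖) := by
      refine le_of_tendsto' h1 fun j => (norm_inner_le_norm _ _).trans ?_
      gcongr
      exact hbound j k
    rw [inner_self_eq_norm_sq_to_K, norm_pow, RCLike.norm_ofReal, abs_norm, sq] at h2
    rcases (norm_nonneg (P k y)).eq_or_lt with h0 | h0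
    · rw [← h0]
      exact (norm_nonneg _).trans (hbound 0 k)
    · exact le_of_mul_le_mul_left h2 h0
  have hpos : ∀ k, 0 < ‖P k x‖ := by
    intro k
    refine (norm_nonneg _).lt_of_ne fun h0 => ?_
    have : P k = 0 := by
      ext y
      obtain ⟨C, hC⟩ := key y
      have := hC k
      rw [← h0, mul_zero] at this
      simpa using this
    have h1 := hP1 k
    rw [this, norm_zero] at h1
    linarith
  obtain ⟨D, hD⟩ := banach_steinhaus (g := fun k => ((‖P k x‖⁻¹ : ℝ) : ℂ) • P k) (fun y => by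
    obtain ⟨C, hC⟩ := key y
    refine ⟨C, fun k => ?_⟩
    rw [smul_apply, norm_smul, Complex.norm_real, norm_inv, norm_norm,
      inv_mul_le_iff₀ (hpos k), mul_comm]
    exact hC k)
  have h3 : ∀ k, 1 ≤ D * ‖P k x‖ := by
    intro k
    have := hD k
    rw [norm_smul, Complex.norm_real, norm_inv, norm_norm, inv_mul_le_iff₀ (hpos k),
      mul_comm] at this
    exact (hP1 k).trans this
  have h4 := (hP0 x).const_mul D
  rw [mul_zero] at h4
  have := ge_of_tendsto' h4 h3
  linarith

end Pool.Agent.Lib.MP_e616d8_an
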