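import Pool.Agent.Lib.MP_e616d8_an.Main

/-! The same example read over the real scalars. -/

open Filter Topology MeasureTheory ProbabilityTheory Complex

namespace Pool.Agent.Lib.MP_e616d8_an

lemma tendsto_weak_iff_gen {𝕜 B : Type*} [RCLike 𝕜] [NormedAddCommGroup B] [NormedSpace 𝕜 B]
    {u : ℕ → B} {y : B} :
    Tendsto (fun k => toWeakSpace 𝕜 B (u k)) atTop (𝓝 (toWeakSpace 𝕜 B y)) ↔
      ∀ f : B →L[𝕜] 𝕜, Tendsto (fun k => f (u k)) atTop (𝓝 (f y)) := by
  constructor
  · intro h f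
    exact ((WeakBilin.eval_continuous (topDualPairing 𝕜 B).flip f).tendsto _).comp h
  · intro h
    have h1 : (𝓝 (toWeakSpace 𝕜 B y)) = Filter.comap
        (fun (x : WeakSpace 𝕜 B) (f : StrongDual 𝕜 B) => (topDualPairing 𝕜 B).flip x f)
        (𝓝 fun f => (topDualPairing 𝕜 B).flip (toWeakSpace 𝕜 B y) f) := nhds_induced _ _
    rw [h1]
    exact tendsto_comap_iff.mpr (tendsto_pi_nhds.mpr h)

/-- Real and complex weak convergence of sequences agree. -/
lemma weak_real_iff {B : Type*} [NormedAddCommGroup B] [NormedSpace ℂ B] [NormedSpace ℝ B]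
    [IsScalarTower ℝ ℂ B] {u : ℕ → B} {y : B} :
    Tendsto (fun k => toWeakSpace ℝ B (u k)) atTop (𝓝 (toWeakSpace ℝ B y)) ↔
      Tendsto (fun k => toWeakSpace ℂ B (u k)) atTop (𝓝 (toWeakSpace ℂ B y)) := by
  rw [tendsto_weak_iff_gen, tendsto_weak_iff_gen]
  constructor
  · intro h g
    have h1 := h (Complex.reCLM.comp (g.restrictScalars ℝ))
    have h2 := h (Complex.imCLM.comp (g.restrictScalars ℝ))
    have h3 := ((Complex.continuous_ofReal.tendsto _).comp h1).add
      (((Complex.continuous_ofReal.tendsto _).comp h2).mul_const I)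
    simpa [Function.comp_def, Complex.re_add_im] using h3
  · intro h f
    have h1 := (Complex.continuous_re.tendsto _).comp
      (h (StrongDual.extendRCLike (𝕜 := ℂ) f))
    have h2 : ∀ x, (StrongDual.extendRCLike (𝕜 := ℂ) f x).re = f x := fun x =>
      StrongDual.re_extendRCLike_apply (𝕜 := ℂ) f x
    simpa [Function.comp_def, h2] using h1

lemma smul_ex {Ω : Type*} [MeasurableSpace Ω] {μ : Measure Ω} [IsProbabilityMeasure μ]
    (c : ℂ) (φ : Lp ℝ 2 μ) : ∃ ψ : Lp ℝ 2 μ, c • ex φ = ‖c‖ • ex ψ := by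
  refine ⟨φ + (memLp_const (arg c)).toLp _, ?_⟩
  apply Lp.ext
  filter_upwards [Lp.coeFn_smul c (ex φ), ex_coe φ,
    Lp.coeFn_smul ‖c‖ (ex (φ + (memLp_const (μ := μ) (p := 2) (arg c)).toLp _)),
    ex_coe (φ + (memLp_const (μ := μ) (p := 2) (arg c)).toLp _),
    Lp.coeFn_add φ ((memLp_const (μ := μ) (p := 2) (arg c)).toLp _),
    (memLp_const (μ := μ) (p := 2) (arg c)).coeFn_toLp] with ω h1 h2 h3 h4 h5 h6
  rw [h1, h3, Pi.smul_apply, Pi.smul_apply, h2, h4, h5, Pi.add_apply, h6, Complex.ofReal_add,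
    mul_add, Complex.exp_add, smul_eq_mul, Complex.real_smul]
  conv_lhs => rw [← Complex.norm_mul_exp_arg_mul_I c]
  rw [mul_comm I (arg c : ℂ)]
  ring

theorem main_real : ∃ T : Lp ℂ 2 toss →L[ℝ] Lp ℂ 2 toss,
    (∃ x, ∀ C : Set (WeakSpace ℝ (Lp ℂ 2 toss)), IsSeqClosed C →
      {y | ∃ (c : ℝ) (n : ℕ), y = toWeakSpace ℝ _ (c • (T ^ n) x)} ⊆ C → C = Set.univ) ∧
    ∀ x, seqClosure {y : WeakSpace ℝ (Lp ℂ 2 toss) |
      ∃ (c : ℝ) (n : ℕ), y = toWeakSpace ℝ _ (c • (T ^ n) x)} ≠ Set.univ := by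
  have : Fact ((2 : ENNReal) ≠ ⊤) := ⟨by norm_num⟩
  obtain ⟨θ, hθ⟩ := exists_generic (μ := toss)
  have hpow : ∀ (n : ℕ) (x : Lp ℂ 2 toss),
      (((rot θ).restrictScalars ℝ) ^ n) x = (rot θ ^ n) x := by
    intro n x
    induction n with
    | zero => rfl
    | succ n ih =>
      rw [pow_succ', pow_succ', mul_apply_eq_comp, mul_apply_eq_comp, ih]
      rfl
  refine ⟨(rot θ).restrictScalars ℝ, ⟨ex 0, fun C hC horb => ?_⟩, fun x hx => ?_⟩
  · let C' : Set (WeakSpace ℂ (Lp ℂ 2 toss)) :=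
      {y | toWeakSpace ℝ _ ((toWeakSpace ℂ _).symm y) ∈ C}
    have hC' : IsSeqClosed C' := by
      intro u y hu hy
      refine hC (x := fun k => toWeakSpace ℝ _ ((toWeakSpace ℂ _).symm (u k))) hu ?_
      exact (weak_real_iff (u := fun k => (toWeakSpace ℂ _).symm (u k))
        (y := (toWeakSpace ℂ _).symm y)).mpr (by simpa using hy)
    have hall : C' = Set.univ := by
      refine seq_dense (μ := toss) (fun k ω => sg (ω k))
        (fun k => (measurable_of_countable sg).comp (measurable_pi_apply k)) ?_ toss_orth C' hC'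
        fun c φ => ?_
      · intro k ω
        cases ω k <;> simp [sg]
      · obtain ⟨ψ, hψ⟩ := smul_ex c φ
        have hclosed : IsClosed
            ((fun y => toWeakSpaceCLM ℝ (Lp ℂ 2 toss) (‖c‖ • y)) ⁻¹' C) :=
          (hC.preimage ((toWeakSpaceCLM ℝ (Lp ℂ 2 toss)).continuous.comp
            (continuous_const_smul ‖c‖)).seqContinuous).isClosed
        have h1 : ex ψ ∈ (fun y => toWeakSpaceCLM ℝ (Lp ℂ 2 toss) (‖c‖ • y)) ⁻¹' C := by
          refine hclosed.closure_subset_iff.mpr ?_ (hθ ψ)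
          rintro _ ⟨n, rfl⟩
          have := horb ⟨‖c‖, n, rfl⟩
          rw [hpow, rot_pow] at this
          exact this
        show toWeakSpace ℝ _ (c • ex φ) ∈ C
        rw [hψ]
        exact h1
    rw [Set.eq_univ_iff_forall] at hall ⊢
    intro y
    exact hall (toWeakSpace ℂ _ ((toWeakSpace ℝ _).symm y))
  · refine rot_not_one_seq θ (fun k => Set.pi (Finset.range k) fun _ => {true})
      (fun k => MeasurableSet.pi (Finset.range k).countable_toSet
        fun _ _ => measurableSet_singleton _) (fun k => ?_) ?_ x ?_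
    · rw [toss_cyl]; simp
    · simp only [toss_cyl]
      exact ENNReal.tendsto_pow_atTop_nhds_zero_of_lt_one (by norm_num)
    · rw [Set.eq_univ_iff_forall] at hx ⊢
      intro y
      obtain ⟨u, hu, hy⟩ := hx (toWeakSpace ℝ _ ((toWeakSpace ℂ _).symm y))
      refine ⟨fun k => toWeakSpace ℂ _ ((toWeakSpace ℝ _).symm (u k)), fun k => ?_, ?_⟩
      · obtain ⟨c, n, hc⟩ := hu k
        refine ⟨(c : ℂ), n, ?_⟩
        show toWeakSpace ℂ _ ((toWeakSpace ℝ _).symm (u k)) = _
        rw [hc, hpow, Complex.coe_smul]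
        rfl
      · have := (weak_real_iff (u := fun k => (toWeakSpace ℝ _).symm (u k))
          (y := (toWeakSpace ℂ _).symm y)).mp (by simpa using hy)
        simpa using this

end Pool.Agent.Lib.MP_e616d8_an
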