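import Pool.Agent.Lib.MP_e616d8_an.Mult

/-! The example on the coin-tossing space. -/

open Filter Topology MeasureTheory ProbabilityTheory

namespace Pool.Agent.Lib.MP_e616d8_an

/-- The fair coin. -/
noncomputable abbrev coin : Measure Bool := uniformOn Set.univ

/-- The coin-tossing measure. -/
noncomputable abbrev toss : Measure (ℕ → Bool) := Measure.infinitePi fun _ => coin

/-- The sign of a coin. -/
def sg (b : Bool) : ℝ := if b then 1 else -1

lemma coin_singleton (b : Bool) : coin {b} = 2⁻¹ := by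
  rw [coin, uniformOn_univ]; simp

lemma integral_sg : ∫ b, sg b ∂coin = 0 := by
  rw [integral_fintype .of_finite]
  simp [Measure.real, coin_singleton, sg]

lemma toss_orth (j k : ℕ) (h : j ≠ k) : ∫ ω, sg (ω j) * sg (ω k) ∂toss = 0 := by
  have hm : Measurable sg := measurable_of_countable _
  have hind := (iIndepFun_infinitePi (P := fun _ : ℕ => coin) (X := fun _ => sg)
    (fun _ => hm)).indepFun h
  have hj : ∀ i, AEStronglyMeasurable (fun ω : ℕ → Bool => sg (ω i)) toss := fun i =>
    (hm.comp (measurable_pi_apply i)).aestronglyMeasurable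
  rw [hind.integral_fun_mul_eq_mul_integral (hj j) (hj k)]
  have : ∫ ω, sg (ω j) ∂toss = 0 := by
    rw [← integral_sg, ← Measure.infinitePi_map_eval (fun _ : ℕ => coin) j,
      integral_map (measurable_pi_apply j).aemeasurable hm.aestronglyMeasurable]
  rw [this, zero_mul]

lemma toss_cyl (k : ℕ) :
    toss (Set.pi (Finset.range k) fun _ => {true}) = 2⁻¹ ^ k := by
  rw [Measure.infinitePi_pi _ (fun _ _ => measurableSet_singleton _)]
  simp [coin_singleton]

theorem main : ∃ T : Lp ℂ 2 toss →L[ℂ] Lp ℂ 2 toss,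
    (∃ x, ∀ C : Set (WeakSpace ℂ (Lp ℂ 2 toss)), IsSeqClosed C →
      {y | ∃ (c : ℂ) (n : ℕ), y = toWeakSpace ℂ _ (c • (T ^ n) x)} ⊆ C → C = Set.univ) ∧
    ∀ x, seqClosure {y : WeakSpace ℂ (Lp ℂ 2 toss) |
      ∃ (c : ℂ) (n : ℕ), y = toWeakSpace ℂ _ (c • (T ^ n) x)} ≠ Set.univ := by
  have : Fact ((2 : ENNReal) ≠ ⊤) := ⟨by norm_num⟩
  obtain ⟨θ, hθ⟩ := exists_generic (μ := toss)
  refine ⟨rot θ, ⟨ex 0, fun C hC horb => ?_⟩, fun x => ?_⟩
  · refine rot_seq_dense θ hθ (fun k ω => sg (ω k))
      (fun k => (measurable_of_countable sg).comp (measurable_pi_apply k)) ?_ toss_orth C hC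
      fun c n => horb ⟨c, n, rfl⟩
    intro k ω
    cases ω k <;> simp [sg]
  · refine rot_not_one_seq θ (fun k => Set.pi (Finset.range k) fun _ => {true})
      (fun k => MeasurableSet.pi (Finset.range k).countable_toSet
        fun _ _ => measurableSet_singleton _) (fun k => ?_) ?_ x
    · rw [toss_cyl]; simp
    · simp only [toss_cyl]
      exact ENNReal.tendsto_pow_atTop_nhds_zero_of_lt_one (by norm_num)

end Pool.Agent.Lib.MP_e616d8_an
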