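import Pool.Agent.Lib.MP_e616d8_an.Abstract

/-! Multiplication operators on `L²` of a probability space. -/

open Filter Topology MeasureTheory Complex

namespace Pool.Agent.Lib.MP_e616d8_an

variable {Ω : Type*} [MeasurableSpace Ω] {μ : Measure Ω}

lemma memLp_mul {g : Ω → ℂ} (hg : AEStronglyMeasurable g μ) (hb : ∀ ω, ‖g ω‖ ≤ 1)
    (f : Lp ℂ 2 μ) : MemLp (fun ω => g ω * f ω) 2 μ :=
  (Lp.memLp f).of_le (hg.mul (Lp.aestronglyMeasurable f)) (.of_forall fun ω => by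
    rw [norm_mul]; exact mul_le_of_le_one_left (norm_nonneg _) (hb ω))

/-- Multiplication by a measurable function bounded by one. -/
noncomputable def mulOp (g : Ω → ℂ) (hg : AEStronglyMeasurable g μ) (hb : ∀ ω, ‖g ω‖ ≤ 1) :
    Lp ℂ 2 μ →L[ℂ] Lp ℂ 2 μ :=
  LinearMap.mkContinuous
    { toFun := fun f => (memLp_mul hg hb f).toLp _
      map_add' := fun f f' => by
        apply Lp.ext
        filter_upwards [(memLp_mul hg hb (f + f')).coeFn_toLp, (memLp_mul hg hb f).coeFn_toLp,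
          (memLp_mul hg hb f').coeFn_toLp, Lp.coeFn_add f f',
          Lp.coeFn_add ((memLp_mul hg hb f).toLp _) ((memLp_mul hg hb f').toLp _)]
          with ω h1 h2 h3 h4 h5
        rw [h1, h5, h4, Pi.add_apply, Pi.add_apply, h2, h3, mul_add]
      map_smul' := fun c f => by
        apply Lp.ext
        filter_upwards [(memLp_mul hg hb (c • f)).coeFn_toLp, (memLp_mul hg hb f).coeFn_toLp,
          Lp.coeFn_smul c f, Lp.coeFn_smul c ((memLp_mul hg hb f).toLp _)]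
          with ω h1 h2 h4 h5
        rw [h1, RingHom.id_apply, h5, h4, Pi.smul_apply, Pi.smul_apply, h2, smul_eq_mul,
          smul_eq_mul]
        ring }
    1 (fun f => by
      rw [one_mul]
      apply Lp.norm_le_norm_of_ae_le
      filter_upwards [(memLp_mul hg hb f).coeFn_toLp] with ω h1
      simp only [LinearMap.coe_mk, AddHom.coe_mk]
      rw [h1, norm_mul]
      exact mul_le_of_le_one_left (norm_nonneg _) (hb ω))

lemma mulOp_coe {g : Ω → ℂ} (hg : AEStronglyMeasurable g μ) (hb : ∀ ω, ‖g ω‖ ≤ 1)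
    (f : Lp ℂ 2 μ) : mulOp g hg hb f =ᵐ[μ] fun ω => g ω * f ω :=
  (memLp_mul hg hb f).coeFn_toLp

lemma norm_eq_of_ae {f g : Lp ℂ 2 μ} (h : ∀ᵐ ω ∂μ, ‖f ω‖ = ‖g ω‖) : ‖f‖ = ‖g‖ :=
  le_antisymm (Lp.norm_le_norm_of_ae_le (h.mono fun _ h => h.le))
    (Lp.norm_le_norm_of_ae_le (h.mono fun _ h => h.ge))

lemma meas_exp {φ : Ω → ℝ} (hφ : AEStronglyMeasurable φ μ) :
    AEStronglyMeasurable (fun ω => cexp (I * φ ω)) μ :=
  (by fun_prop : Continuous fun t : ℝ => cexp (I * t)).comp_aestronglyMeasurable hφ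

lemma norm_exp_I (t : ℝ) : ‖cexp (I * t)‖ = 1 := by
  rw [mul_comm]; exact Complex.norm_exp_ofReal_mul_I t

lemma norm_exp_sub (a b : ℝ) : ‖cexp (I * a) - cexp (I * b)‖ ≤ ‖a - b‖ := by
  have : cexp (I * a) - cexp (I * b) = cexp (I * b) * (cexp (I * (a - b : ℝ)) - 1) := by
    rw [mul_sub, ← Complex.exp_add]; push_cast; ring_nf
  rw [this, norm_mul, norm_exp_I, one_mul]
  exact Real.norm_exp_I_mul_ofReal_sub_one_le

variable [IsProbabilityMeasure μ]

/-- The unimodular function `exp (i φ)` as an element of `L²`. -/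
noncomputable def ex (φ : Lp ℝ 2 μ) : Lp ℂ 2 μ :=
  (MemLp.of_bound (meas_exp (Lp.aestronglyMeasurable φ)) 1
    (.of_forall fun _ => (norm_exp_I _).le)).toLp _

lemma ex_coe (φ : Lp ℝ 2 μ) : ex φ =ᵐ[μ] fun ω => cexp (I * φ ω) := MemLp.coeFn_toLp _

lemma ex_lip (φ ψ : Lp ℝ 2 μ) : ‖ex φ - ex ψ‖ ≤ ‖φ - ψ‖ := by
  apply Lp.norm_le_norm_of_ae_le
  filter_upwards [ex_coe φ, ex_coe ψ, Lp.coeFn_sub (ex φ) (ex ψ), Lp.coeFn_sub φ ψ]
    with ω h1 h2 h3 h4
  rw [h3, h4, Pi.sub_apply, Pi.sub_apply, h1, h2]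
  exact norm_exp_sub _ _

lemma ex_cont : Continuous (ex : Lp ℝ 2 μ → Lp ℂ 2 μ) :=
  (LipschitzWith.of_dist_le_mul (K := 1) fun φ ψ => by
    simpa [dist_eq_norm] using ex_lip φ ψ).continuous

/-- Any phase can be moved a little so that `n` times it is a prescribed phase modulo `2 π`. -/
lemma exists_near (θ φ : Lp ℝ 2 μ) (n : ℕ) (hn : 0 < n) :
    ∃ θ' : Lp ℝ 2 μ, ‖θ' - θ‖ ≤ (2 * Real.pi + ‖φ‖) / n ∧ ex ((n : ℝ) • θ') = ex φ := by
  have hn' : (0 : ℝ) < n := by exact_mod_cast hn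
  have hpi : 0 < 2 * Real.pi := by positivity
  let d : Ω → ℝ := fun ω => 2 * Real.pi / n * Int.fract (n * θ ω / (2 * Real.pi))
  have hd : ∀ ω, ‖d ω‖ ≤ 2 * Real.pi / n := by
    intro ω
    have h0 := Int.fract_nonneg (n * θ ω / (2 * Real.pi))
    have h1 := (Int.fract_lt_one (n * θ ω / (2 * Real.pi))).le
    rw [Real.norm_eq_abs, abs_of_nonneg (by positivity)]
    exact mul_le_of_le_one_right (by positivity) h1
  have hθ := (Lp.stronglyMeasurable θ).measurable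
  have hdm : Measurable d := by
    have : Measurable fun ω => (n : ℝ) * θ ω / (2 * Real.pi) := by fun_prop
    exact (measurable_fract.comp this).const_mul _
  have hdL : MemLp d 2 μ := MemLp.of_bound hdm.aestronglyMeasurable _ (.of_forall hd)
  have hdn : ‖hdL.toLp d‖ ≤ 2 * Real.pi / n := by
    have := Lp.norm_le_of_ae_bound (f := hdL.toLp d) (C := 2 * Real.pi / n) (by positivity)
      (by filter_upwards [hdL.coeFn_toLp] with ω h; rw [h]; exact hd ω)
    simpa [measureUnivNNReal] using this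
  refine ⟨θ - hdL.toLp d + (n : ℝ)⁻¹ • φ, ?_, ?_⟩
  · have : θ - hdL.toLp d + (n : ℝ)⁻¹ • φ - θ = (n : ℝ)⁻¹ • φ - hdL.toLp d := by abel
    rw [this]
    refine (norm_sub_le _ _).trans ?_
    rw [norm_smul, norm_inv, Real.norm_natCast, add_div, inv_mul_eq_div]
    linarith
  · apply Lp.ext
    filter_upwards [ex_coe ((n : ℝ) • (θ - hdL.toLp d + (n : ℝ)⁻¹ • φ)), ex_coe φ,
      Lp.coeFn_smul (n : ℝ) (θ - hdL.toLp d + (n : ℝ)⁻¹ • φ),
      Lp.coeFn_add (θ - hdL.toLp d) ((n : ℝ)⁻¹ • φ), Lp.coeFn_sub θ (hdL.toLp d),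
      Lp.coeFn_smul (n : ℝ)⁻¹ φ, hdL.coeFn_toLp] with ω h1 h2 h3 h4 h5 h6 h7
    rw [h1, h2, h3, Pi.smul_apply, h4, Pi.add_apply, h5, Pi.sub_apply, h6, h7, Pi.smul_apply,
      smul_eq_mul, smul_eq_mul]
    have h8 : (n : ℝ) * (θ ω - d ω + (n : ℝ)⁻¹ * φ ω) =
        φ ω + (⌊n * θ ω / (2 * Real.pi)⌋ : ℤ) * (2 * Real.pi) := by
      simp only [d, Int.fract]
      field_simp
      ring
    rw [h8]
    push_cast
    rw [mul_add, Complex.exp_add]
    have := Complex.exp_int_mul_two_pi_mul_I ⌊n * θ ω / (2 * Real.pi)⌋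
    rw [show I * ((⌊n * θ ω / (2 * Real.pi)⌋ : ℤ) * (2 * (Real.pi : ℂ))) =
      (⌊n * θ ω / (2 * Real.pi)⌋ : ℤ) * (2 * Real.pi * I) by ring, this, mul_one]

/-- A generic phase `θ`: the powers of `exp (i θ)` approximate every unimodular function. -/
lemma exists_generic [SecondCountableTopology (Lp ℝ 2 μ)] :
    ∃ θ : Lp ℝ 2 μ, ∀ φ : Lp ℝ 2 μ,
      ex φ ∈ closure (Set.range fun n : ℕ => ex ((n : ℝ) • θ)) := by
  let D := TopologicalSpace.denseSeq (Lp ℝ 2 μ)
  let G : ℕ × ℕ → Set (Lp ℝ 2 μ) := fun p =>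
    ⋃ n : ℕ, {θ | ‖ex ((n : ℝ) • θ) - ex (D p.1)‖ < 1 / ((p.2 : ℝ) + 1)}
  have hGo : ∀ p, IsOpen (G p) := fun p => isOpen_iUnion fun n =>
    isOpen_lt (((ex_cont.comp (continuous_const_smul (n : ℝ))).sub continuous_const).norm)
      continuous_const
  have hGd : ∀ p, Dense (G p) := by
    intro p θ
    rw [Metric.mem_closure_iff]
    intro ε hε
    obtain ⟨n, hn⟩ := exists_nat_gt ((2 * Real.pi + ‖D p.1‖) / ε)
    have hpos : 0 < (2 * Real.pi + ‖D p.1‖) / ε := by positivity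
    have hn0 : (0 : ℝ) < n := hpos.trans hn
    obtain ⟨θ', h1, h2⟩ := exists_near θ (D p.1) n (by exact_mod_cast hn0)
    refine ⟨θ', Set.mem_iUnion.mpr ⟨n, ?_⟩, ?_⟩
    · simp only [Set.mem_ofPred_eq, h2, sub_self, norm_zero]
      positivity
    · rw [dist_comm, dist_eq_norm]
      refine h1.trans_lt ?_
      rw [div_lt_iff₀ hn0]
      rw [div_lt_iff₀ hε] at hn
      linarith
  obtain ⟨θ, hθ⟩ := (dense_iInter_of_isOpen hGo hGd).nonempty
  refine ⟨θ, fun φ => ?_⟩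
  rw [Metric.mem_closure_iff]
  intro ε hε
  obtain ⟨j, hj⟩ := (TopologicalSpace.denseRange_denseSeq (Lp ℝ 2 μ)).exists_dist_lt φ
    (half_pos hε)
  obtain ⟨m, hm⟩ := exists_nat_one_div_lt (half_pos hε)
  obtain ⟨n, hn⟩ := Set.mem_iUnion.mp (Set.mem_iInter.mp hθ (j, m))
  refine ⟨_, ⟨n, rfl⟩, ?_⟩
  simp only [Set.mem_ofPred_eq] at hn
  have h1 : dist (ex φ) (ex (D j)) < ε / 2 := by
    rw [dist_eq_norm] at hj ⊢
    exact (ex_lip _ _).trans_lt hj
  have h2 : dist (ex (D j)) (ex ((n : ℝ) • θ)) < ε / 2 := by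
    rw [dist_comm, dist_eq_norm]
    exact hn.trans hm
  linarith [dist_triangle (ex φ) (ex (D j)) (ex ((n : ℝ) • θ))]

/-- Multiplication by `exp (i θ)`. -/
noncomputable def rot (θ : Lp ℝ 2 μ) : Lp ℂ 2 μ →L[ℂ] Lp ℂ 2 μ :=
  mulOp (fun ω => cexp (I * θ ω)) (meas_exp (Lp.aestronglyMeasurable θ))
    (fun _ => (norm_exp_I _).le)

omit [IsProbabilityMeasure μ] in
lemma rot_coe (θ : Lp ℝ 2 μ) (f : Lp ℂ 2 μ) :
    rot θ f =ᵐ[μ] fun ω => cexp (I * θ ω) * f ω := mulOp_coe _ _ f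

lemma rot_pow (θ : Lp ℝ 2 μ) (n : ℕ) : (rot θ ^ n) (ex 0) = ex ((n : ℝ) • θ) := by
  induction n with
  | zero => simp
  | succ n ih =>
    rw [pow_succ', mul_apply_eq_comp, ih]
    apply Lp.ext
    filter_upwards [rot_coe θ (ex ((n : ℝ) • θ)), ex_coe ((n : ℝ) • θ),
      ex_coe (((n + 1 : ℕ) : ℝ) • θ), Lp.coeFn_smul (n : ℝ) θ,
      Lp.coeFn_smul ((n + 1 : ℕ) : ℝ) θ] with ω h1 h2 h3 h4 h5
    rw [h1, h2, h3, h4, h5, ← Complex.exp_add]
    simp only [Pi.smul_apply, smul_eq_mul]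
    push_cast
    ring_nf

omit [IsProbabilityMeasure μ] in
lemma rot_norm (θ : Lp ℝ 2 μ) (f : Lp ℂ 2 μ) : ‖rot θ f‖ = ‖f‖ := by
  apply norm_eq_of_ae
  filter_upwards [rot_coe θ f] with ω h
  rw [h, norm_mul, norm_exp_I, one_mul]

/-- The multiplication operator is never weakly `1`-sequentially supercyclic when there are sets
of arbitrarily small positive measure. -/
lemma rot_not_one_seq (θ : Lp ℝ 2 μ) (A : ℕ → Set Ω) (hA : ∀ k, MeasurableSet (A k))
    (hA0 : ∀ k, μ (A k) ≠ 0) (hA1 : Tendsto (fun k => μ (A k)) atTop (𝓝 0)) (x : Lp ℂ 2 μ) :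
    seqClosure {y : WeakSpace ℂ (Lp ℂ 2 μ) |
      ∃ (c : ℂ) (n : ℕ), y = toWeakSpace ℂ _ (c • (rot θ ^ n) x)} ≠ Set.univ := by
  have hm : ∀ k, AEStronglyMeasurable ((A k).indicator fun _ => (1 : ℂ)) μ := fun k =>
    aestronglyMeasurable_const.indicator (hA k)
  have hb : ∀ k ω, ‖((A k).indicator fun _ => (1 : ℂ)) ω‖ ≤ 1 := fun k ω => by
    simpa using norm_indicator_le_norm_self (s := A k) (f := fun _ => (1 : ℂ)) ω
  refine not_one_seq (rot θ) (fun k => mulOp _ (hm k) (hb k)) (rot_norm θ) ?_ ?_ ?_ x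
  · intro k f
    apply norm_eq_of_ae
    filter_upwards [mulOp_coe (hm k) (hb k) (rot θ f), mulOp_coe (hm k) (hb k) f, rot_coe θ f]
      with ω h1 h2 h3
    rw [h1, h2, h3, norm_mul, norm_mul, norm_mul, norm_exp_I, one_mul]
  · intro f
    rw [Metric.tendsto_atTop]
    intro ε hε
    obtain ⟨δ, hδ, h⟩ := (Lp.memLp f).eLpNorm_indicator_le (by norm_num) (by norm_num)
      (half_pos hε)
    have hev := hA1.eventually (ge_mem_nhds (ENNReal.ofReal_pos.mpr hδ))
    obtain ⟨N, hN⟩ := eventually_atTop.mp hev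
    refine ⟨N, fun k hk => ?_⟩
    have h1 := h (A k) (hA k) (hN k hk)
    have h2 : mulOp _ (hm k) (hb k) f =ᵐ[μ] (A k).indicator f := by
      filter_upwards [mulOp_coe (hm k) (hb k) f] with ω h1
      rw [h1]
      by_cases hω : ω ∈ A k <;> simp [hω]
    rw [dist_zero_right, norm_norm, Lp.norm_def, eLpNorm_congr_ae h2]
    have := ENNReal.toReal_mono ENNReal.ofReal_ne_top h1
    rw [ENNReal.toReal_ofReal (half_pos hε).le] at this
    linarith
  · intro k
    let y : Lp ℂ 2 μ := indicatorConstLp 2 (hA k) (measure_ne_top μ _) (1 : ℂ)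
    have hy : mulOp _ (hm k) (hb k) y = y := by
      apply Lp.ext
      filter_upwards [mulOp_coe (hm k) (hb k) y,
        indicatorConstLp_coeFn (p := 2) (hs := hA k) (hμs := measure_ne_top μ _) (c := (1 : ℂ))]
        with ω h1 h2
      rw [h1, h2]
      by_cases hω : ω ∈ A k <;> simp [hω]
    have hy0 : 0 < ‖y‖ := by
      rw [norm_indicatorConstLp (by norm_num) (by norm_num), norm_one, one_mul]
      exact Real.rpow_pos_of_pos (ENNReal.toReal_pos (hA0 k) (measure_ne_top μ _)) _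
    have := (mulOp _ (hm k) (hb k)).le_opNorm y
    rw [hy] at this
    exact le_of_mul_le_mul_right (by simpa using this) hy0

/-- With a Rademacher sequence, the unimodular functions and their multiples are weakly
sequentially dense. -/
lemma seq_dense (r : ℕ → Ω → ℝ) (hr : ∀ k, Measurable (r k))
    (hr1 : ∀ k ω, r k ω = 1 ∨ r k ω = -1)
    (hr0 : ∀ j k, j ≠ k → ∫ ω, r j ω * r k ω ∂μ = 0)
    (C : Set (WeakSpace ℂ (Lp ℂ 2 μ))) (hC : IsSeqClosed C)
    (hex : ∀ (c : ℂ) (φ : Lp ℝ 2 μ), toWeakSpace ℂ _ (c • ex φ) ∈ C) : C = Set.univ := by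
  have hclosed : IsClosed (toWeakSpaceCLM ℂ (Lp ℂ 2 μ) ⁻¹' C) :=
    (hC.preimage (toWeakSpaceCLM ℂ (Lp ℂ 2 μ)).continuous.seqContinuous).isClosed
  have hrn : ∀ k ω, ‖((r k ω : ℝ) : ℂ)‖ ≤ 1 := fun k ω => by
    rcases hr1 k ω with h | h <;> simp [h]
  have hrm : ∀ k, MemLp (fun ω => ((r k ω : ℝ) : ℂ)) 2 μ := fun k =>
    MemLp.of_bound (Complex.measurable_ofReal.comp (hr k)).aestronglyMeasurable 1
      (.of_forall (hrn k))
  let R : ℕ → Lp ℂ 2 μ := fun k => (hrm k).toLp _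
  have hRi : ∀ j k, inner ℂ (R j) (R k) = ((∫ ω, r j ω * r k ω ∂μ : ℝ) : ℂ) := by
    intro j k
    rw [L2.inner_def, ← integral_complex_ofReal]
    apply integral_congr_ae
    filter_upwards [(hrm j).coeFn_toLp, (hrm k).coeFn_toLp] with ω h1 h2
    simp only [R]
    rw [h1, h2]
    simp [mul_comm]
  have hR : Orthonormal ℂ R := by
    rw [orthonormal_iff_ite]
    intro j k
    rw [hRi]
    split_ifs with h
    · subst h
      have : ∀ ω, r j ω * r j ω = 1 := fun ω => by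
        rcases hr1 j ω with h | h <;> simp [h]
      simp [this]
    · simp [hr0 j k h]
  have hball : ∀ (c : ℂ) (f : Lp ℂ 2 μ), (∀ᵐ ω ∂μ, ‖f ω‖ ≤ 1) → toWeakSpace ℂ _ (c • f) ∈ C := by
    intro c f hf
    have hfm := (Lp.stronglyMeasurable f).measurable
    let α : Ω → ℝ := fun ω => arg (f ω)
    let β : Ω → ℝ := fun ω => Real.arccos ‖f ω‖
    have hα : Measurable α := Complex.measurable_arg.comp hfm
    have hβ : Measurable β := Real.continuous_arccos.measurable.comp hfm.norm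
    have hw : ∀ k, MemLp (fun ω => α ω + r k ω * β ω) 2 μ := fun k =>
      MemLp.of_bound (hα.add ((hr k).mul hβ)).aestronglyMeasurable (Real.pi + Real.pi)
        (.of_forall fun ω => by
          refine (norm_add_le _ _).trans (add_le_add (Complex.abs_arg_le_pi _) ?_)
          have h1 : |β ω| ≤ Real.pi := by
            rw [abs_of_nonneg (Real.arccos_nonneg _)]; exact Real.arccos_le_pi _
          rcases hr1 k ω with h | h <;> simpa [h] using h1)
    let h : Ω → ℂ := fun ω => I * cexp (I * α ω) * (Real.sin (β ω) : ℝ)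
    have hhm : AEStronglyMeasurable h μ :=
      ((meas_exp hα.aestronglyMeasurable).const_mul I).mul
        (Complex.measurable_ofReal.comp (Real.measurable_sin.comp hβ)).aestronglyMeasurable
    have hhb : ∀ ω, ‖h ω‖ ≤ 1 := fun ω => by
      simp only [h, norm_mul, norm_I, norm_exp_I, one_mul, norm_real, Real.norm_eq_abs]
      exact Real.abs_sin_le_one _
    have hwk : ∀ k, ex ((hw k).toLp _) = f + mulOp h hhm hhb (R k) := by
      intro k
      apply Lp.ext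
      filter_upwards [ex_coe ((hw k).toLp _), (hw k).coeFn_toLp,
        Lp.coeFn_add f (mulOp h hhm hhb (R k)), mulOp_coe hhm hhb (R k), (hrm k).coeFn_toLp, hf]
        with ω h1 h2 h3 h4 h5 h6
      rw [h1, h2, h3, Pi.add_apply, h4]
      simp only [R]
      rw [h5]
      have h7 : f ω = (Real.cos (β ω) : ℝ) * cexp (I * α ω) := by
        rw [Real.cos_arccos (by linarith [norm_nonneg (f ω)]) h6, mul_comm I]
        exact (Complex.norm_mul_exp_arg_mul_I _).symm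
      have h8 : cexp (I * (r k ω * β ω : ℝ)) =
          (Real.cos (β ω) : ℝ) + (r k ω : ℝ) * (Real.sin (β ω) : ℝ) * I := by
        rw [mul_comm I, Complex.exp_mul_I, ← Complex.ofReal_cos, ← Complex.ofReal_sin]
        rcases hr1 k ω with h | h <;> simp [h]
      rw [Complex.ofReal_add, mul_add, Complex.exp_add, h8]
      conv_rhs => rw [h7]
      simp only [h]
      ring
    refine hC (x := fun k => toWeakSpace ℂ _ (c • ex ((hw k).toLp _))) (fun k => hex c _) ?_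
    rw [tendsto_weak_iff]
    intro g
    simp only [LinearEquiv.symm_apply_apply, hwk, smul_add, map_add]
    have := tendsto_functional_orthonormal hR (g.comp (c • mulOp h hhm hhb))
    simpa using this.const_add (g (c • f))
  have hdense := Lp.simpleFunc.dense (E := ℂ) (p := 2) (μ := μ) (by norm_num)
  have hsub : (Lp.simpleFunc ℂ 2 μ : Set (Lp ℂ 2 μ)) ⊆ toWeakSpaceCLM ℂ (Lp ℂ 2 μ) ⁻¹' C := by
    intro f hf
    obtain ⟨M, hM⟩ := (Lp.simpleFunc.toSimpleFunc ⟨f, hf⟩).exists_forall_norm_le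
    have hM' : ∀ᵐ ω ∂μ, ‖f ω‖ ≤ M := by
      filter_upwards [Lp.simpleFunc.toSimpleFunc_eq_toFun ⟨f, hf⟩] with ω h
      have := hM ω
      rw [h] at this
      exact this
    set K : ℝ := |M| + 1 with hK
    have hK0 : 0 < K := by positivity
    have h1 := hball (K : ℂ) (((K : ℂ))⁻¹ • f) (by
      filter_upwards [hM', Lp.coeFn_smul ((K : ℂ))⁻¹ f] with ω h1 h2
      rw [h2, Pi.smul_apply, norm_smul, norm_inv, norm_real, Real.norm_eq_abs, abs_of_pos hK0,
        inv_mul_le_iff₀ hK0]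
      have := le_abs_self M
      linarith)
    rw [smul_smul, mul_inv_cancel₀ (by exact_mod_cast hK0.ne'), one_smul] at h1
    exact h1
  have hall : toWeakSpaceCLM ℂ (Lp ℂ 2 μ) ⁻¹' C = Set.univ := by
    rw [← hclosed.closure_eq]
    exact (hdense.mono hsub).closure_eq
  rw [Set.eq_univ_iff_forall] at hall ⊢
  intro y
  exact hall ((toWeakSpace ℂ _).symm y)

/-- For a generic phase the projective orbit of the constant function is weakly sequentially
dense. -/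
lemma rot_seq_dense (θ : Lp ℝ 2 μ)
    (hθ : ∀ φ : Lp ℝ 2 μ, ex φ ∈ closure (Set.range fun n : ℕ => ex ((n : ℝ) • θ)))
    (r : ℕ → Ω → ℝ) (hr : ∀ k, Measurable (r k))
    (hr1 : ∀ k ω, r k ω = 1 ∨ r k ω = -1)
    (hr0 : ∀ j k, j ≠ k → ∫ ω, r j ω * r k ω ∂μ = 0)
    (C : Set (WeakSpace ℂ (Lp ℂ 2 μ))) (hC : IsSeqClosed C)
    (horb : ∀ (c : ℂ) (n : ℕ), toWeakSpace ℂ _ (c • (rot θ ^ n) (ex 0)) ∈ C) : C = Set.univ := by
  refine seq_dense r hr hr1 hr0 C hC fun c φ => ?_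
  have hclosed : IsClosed ((fun y => toWeakSpaceCLM ℂ (Lp ℂ 2 μ) (c • y)) ⁻¹' C) :=
    (hC.preimage ((toWeakSpaceCLM ℂ (Lp ℂ 2 μ)).continuous.comp
      (continuous_const_smul c)).seqContinuous).isClosed
  refine hclosed.closure_subset_iff.mpr ?_ (hθ φ)
  rintro _ ⟨n, rfl⟩
  have := horb c n
  rw [rot_pow] at this
  exact this

end Pool.Agent.Lib.MP_e616d8_an
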